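import Pool.Agent.H29.TOW.S
import Pool.Agent.H5.HT.Quad

/-!
GAL: descent of a nontrivial class from an extension whose degree is a power of two.
-/

set_option autoImplicit false

namespace Pool.TOW

open Polynomial Pool.HYP Pool.AVS

/-- The involution of a quadratic Galois extension. -/
lemma invol (K L : Type) [Field K] [Field L] [Algebra K L] [FiniteDimensional K L]
    [IsGalois K L] (h : Module.finrank K L = 2) :
    ∃ σ : L ≃ₐ[K] L, (∀ x, σ (σ x) = x) ∧ (∀ x : L, σ x = x → ∃ y, algebraMap K L y = x) ∧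
      ∃ x₀, σ x₀ ≠ x₀ := by
  have hc : Nat.card (L ≃ₐ[K] L) = 2 := by rw [IsGalois.card_aut_eq_finrank, h]
  obtain ⟨a, b, hab, hU⟩ := Nat.card_eq_two_iff.1 hc
  have hex : ∃ σ : L ≃ₐ[K] L, σ ≠ 1 ∧ ∀ τ : L ≃ₐ[K] L, τ = 1 ∨ τ = σ := by
    have h1 : (1 : L ≃ₐ[K] L) ∈ ({a, b} : Set (L ≃ₐ[K] L)) := by rw [hU]; trivial
    have ht : ∀ τ : L ≃ₐ[K] L, τ = a ∨ τ = b := by
      intro τ
      have : τ ∈ ({a, b} : Set (L ≃ₐ[K] L)) := by rw [hU]; trivial
      simpa using this
    rcases ht 1 with h1 | h1
    · exact ⟨b, by rw [h1]; exact hab.symm, fun τ => by rw [h1]; exact ht τ⟩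
    · exact ⟨a, by rw [h1]; exact hab, fun τ => by rw [h1]; exact (ht τ).symm⟩
  obtain ⟨σ, hσ1, hσ⟩ := hex
  refine ⟨σ, ?_, ?_, ?_⟩
  · intro x
    have hss : σ * σ = 1 := by
      rcases hσ (σ * σ) with h | h
      · exact h
      · exact absurd (mul_eq_left.1 h) hσ1
    have := congrArg (fun τ : L ≃ₐ[K] L => τ x) hss
    simpa using this
  · intro x hx
    have : x ∈ Set.range (algebraMap K L) := by
      rw [IsGalois.mem_range_algebraMap_iff_fixed]
      intro τ
      rcases hσ τ with h | h
      · rw [h]; rfl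
      · rw [h]; exact hx
    exact this
  · by_contra hn
    push Not at hn
    exact hσ1 (AlgEquiv.ext fun x => by rw [hn x]; rfl)

/-- GAL. -/
theorem gal : GALStmt := by
  have main : ∀ m : ℕ, ∀ (K E : Type) [Field K] [Field E] [Algebra K E], (2 : K) ≠ 0 →
      FiniteDimensional K E → IsGalois K E → Module.finrank K E = 2 ^ m →
      ∀ f : K[X], f.Monic → Irreducible f → Odd f.natDegree → ∀ W : Set E[X],
      (∀ p ∈ W, IsCoprime p (f.map (algebraMap K E)) ∧ NSq (f.map (algebraMap K E)) p) →
      (∀ p ∈ W, ∀ q ∈ W, p * q ∈ W) →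
      (∀ p ∈ W, ∀ q s : E[X], IsCoprime s (f.map (algebraMap K E)) →
        f.map (algebraMap K E) ∣ q - p * s ^ 2 → q ∈ W) →
      (∀ p ∈ W, ∀ σ : E ≃ₐ[K] E, p.map (σ : E →+* E) ∈ W) →
      (∃ p ∈ W, ¬ ∃ s : E[X], f.map (algebraMap K E) ∣ p - s ^ 2) →
      ∃ α : K[X], IsCoprime α f ∧ NSq f α ∧ (¬ ∃ s : K[X], f ∣ α - s ^ 2) ∧
        α.map (algebraMap K E) ∈ W := by
    intro m
    induction m with
    | zero =>
      intro K E _ _ _ h2 hfd hg hfr f hf hirr hodd W hW0 hWm hWq hWs hp
      rw [pow_zero] at hfr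
      have hbot : ∀ x : E, ∃ y, algebraMap K E y = x := by
        intro x
        have h1 : (⊥ : Subalgebra K E) = ⊤ := Subalgebra.bot_eq_top_of_finrank_eq_one hfr
        have h3 : x ∈ (⊥ : Subalgebra K E) := by rw [h1]; trivial
        exact Algebra.mem_bot.1 h3
      obtain ⟨p, hpW, hpn⟩ := hp
      have hl : p ∈ Polynomial.lifts (algebraMap K E) := by
        rw [Polynomial.lifts_iff_coeff_lifts]
        intro n
        obtain ⟨y, hy⟩ := hbot (p.coeff n)
        exact ⟨y, hy⟩
      obtain ⟨α, hα⟩ := (Polynomial.mem_lifts p).1 hl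
      refine ⟨α, ?_, ?_, ?_, by rw [hα]; exact hpW⟩
      · have := (hW0 p hpW).1
        rw [← hα] at this
        exact (Polynomial.isCoprime_map (algebraMap K E)).1 this
      · obtain ⟨c, hc⟩ := (hW0 p hpW).2
        obtain ⟨c', hc'⟩ := hbot c
        refine ⟨c', ?_⟩
        apply (algebraMap K E).injective
        rw [map_mul, hc', ← hc, ← hα]
        have h5 := Pool.HT5.norm_io (L := E) f hf (AdjoinRoot.mk f α)
        rw [Pool.HT5.io_mk] at h5
        exact h5.symm
      · rintro ⟨s, hs⟩
        apply hpn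
        refine ⟨s.map (algebraMap K E), ?_⟩
        rw [← hα, ← Polynomial.map_pow, ← Polynomial.map_sub]
        exact Polynomial.map_dvd _ hs
    | succ m ih =>
      intro K E _ _ _ h2 hfd hg hfr f hf hirr hodd W hW0 hWm hWq hWs hp
      have hcard : Nat.card (E ≃ₐ[K] E) = 2 ^ (m + 1) := by
        rw [IsGalois.card_aut_eq_finrank, hfr]
      haveI : Fact (Nat.Prime 2) := ⟨Nat.prime_two⟩
      obtain ⟨H, hH⟩ := Sylow.exists_subgroup_card_pow_prime (G := E ≃ₐ[K] E) 2 (n := m)
        (by rw [hcard]; exact pow_dvd_pow 2 (Nat.le_succ m))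
      have hidx : H.index = 2 := by
        have h3 := H.card_mul_index
        rw [hH, hcard, pow_succ] at h3
        exact Nat.eq_of_mul_eq_mul_left (pow_pos (by norm_num) m) h3
      haveI hHn : H.Normal := Subgroup.normal_of_index_eq_two hidx
      set K1 : IntermediateField K E := IntermediateField.fixedField H with hK1
      have hfr1 : Module.finrank K1 E = 2 ^ m := by
        rw [hK1, IntermediateField.finrank_fixedField_eq_card, hH]
      have hfr0 : Module.finrank K K1 = 2 := by
        have h3 := Module.finrank_mul_finrank K K1 E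
        rw [hfr1, hfr, pow_succ, mul_comm] at h3
        exact Nat.eq_of_mul_eq_mul_left (pow_pos (by norm_num) m) h3
      haveI hg0 : IsGalois K K1 := by rw [hK1]; infer_instance
      haveI hg1 : IsGalois K1 E := IsGalois.tower_top_intermediateField K1
      have h21 : (2 : K1) ≠ 0 := by
        intro h
        apply h2
        apply (algebraMap K K1).injective
        rw [map_ofNat, h, map_zero]
      obtain ⟨σ, hσσ, hσf, x₀, hx₀⟩ := invol K K1 hfr0
      set f1 : K1[X] := f.map (algebraMap K K1) with hf1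
      have hf1m : f1.Monic := hf.map _
      have hf1d : f1.natDegree = f.natDegree := hf.natDegree_map _
      have hf1i : Irreducible f1 := Pool.HT5.irr_quad σ hσσ hσf f hf hodd hirr
      have hmap : f1.map (algebraMap K1 E) = f.map (algebraMap K E) := by
        rw [hf1, Polynomial.map_map]
        rfl
      obtain ⟨α1, hc1, hn1, hs1, hw1⟩ := ih K1 E h21 inferInstance hg1 hfr1 f1 hf1m hf1i
        (by rw [hf1d]; exact hodd) W (by rw [hmap]; exact hW0) hWm (by rw [hmap]; exact hWq)
        (fun p hpW τ => hWs p hpW (τ.restrictScalars K)) (by rw [hmap]; exact hp)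
      set W1 : Set K1[X] := {p | IsCoprime p f1 ∧ NSq f1 p ∧ p.map (algebraMap K1 E) ∈ W} with hW1
      have hq := Pool.HT5.quad_step h2 σ hσσ hσf x₀ hx₀ f hf hodd hirr W1
        (fun p hpW => ⟨hpW.1, hpW.2.1⟩)
        (by
          rintro p ⟨hpc, hpn, hpw⟩ q ⟨hqc, hqn, hqw⟩
          refine ⟨hpc.mul_left hqc, ?_, ?_⟩
          · show IsSquare _
            rw [map_mul, map_mul]
            exact IsSquare.mul hpn hqn
          · rw [Polynomial.map_mul]; exact hWm _ hpw _ hqw)
        (by
          rintro p ⟨hpc, hpn, hpw⟩ q s hsc hd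
          obtain ⟨k, hk⟩ := hd
          have hq' : q = p * s ^ 2 + f1 * k := by rw [← hk]; ring
          refine ⟨?_, ?_, ?_⟩
          · rw [hq']
            exact (hpc.mul_left (hsc.pow_left)).add_mul_left_left k
          · show IsSquare _
            have : AdjoinRoot.mk f1 q = AdjoinRoot.mk f1 p * AdjoinRoot.mk f1 s ^ 2 := by
              rw [hq', map_add, map_mul, map_pow, map_mul, AdjoinRoot.mk_self, zero_mul, add_zero]
            rw [this, map_mul, map_pow]
            exact IsSquare.mul hpn ⟨_, pow_two _⟩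
          · refine hWq _ hpw _ (s.map (algebraMap K1 E)) ?_ ?_
            · rw [← hmap]
              exact (Polynomial.isCoprime_map (algebraMap K1 E)).2 hsc
            · rw [← hmap, ← Polynomial.map_pow, ← Polynomial.map_mul, ← Polynomial.map_sub]
              exact Polynomial.map_dvd _ ⟨k, hk⟩)
        (by
          rintro p ⟨hpc, hpn, hpw⟩
          have hf1s : f1.map (σ : K1 →+* K1) = f1 := by
            rw [hf1, Polynomial.map_map]
            congr 1
            ext x; simp
          refine ⟨?_, ?_, ?_⟩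
          · have := (Polynomial.isCoprime_map (σ : K1 →+* K1)).2 hpc
            rw [hf1s] at this
            exact this
          · show IsSquare _
            have h5 := Pool.HT5.norm_sg σ f hf (AdjoinRoot.mk (Pool.HT5.fL K1 f) p)
            rw [Pool.HT5.sg_mk] at h5
            obtain ⟨c, hc⟩ := hpn
            refine ⟨σ c, ?_⟩
            rw [← map_mul, ← hc]
            exact h5
          · have h6 := hWs _ hpw (σ.liftNormal E)
            have h7 : (p.map (algebraMap K1 E)).map ((σ.liftNormal E : E ≃ₐ[K] E) : E →+* E) =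
                (p.map (σ : K1 →+* K1)).map (algebraMap K1 E) := by
              rw [Polynomial.map_map, Polynomial.map_map]
              congr 1
              ext x
              exact σ.liftNormal_commutes E x
            rw [← h7]; exact h6)
        ⟨α1, ⟨hc1, hn1, hw1⟩, hs1⟩
      obtain ⟨α, ha1, ha2, ha3, ha4⟩ := hq
      refine ⟨α, ha1, ha2, ha3, ?_⟩
      have h8 := ha4.2.2
      rw [Polynomial.map_map] at h8
      exact h8
  intro K E _ _ _ h2 hfd hg ⟨m, hm⟩ f hf hirr hodd W hW0 hWm hWq hWs hp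
  exact main m K E h2 hfd hg hm f hf hirr hodd W hW0 hWm hWq hWs hp

end Pool.TOW
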